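import Pool.Agent.Run7.h635.PER.Lat3
import Pool.Agent.Run7.h635.GEN.Stm

/-! The period lattice of an eigenform. -/

set_option autoImplicit false

open MatrixGroups UpperHalfPlane ModularForm CongruenceSubgroup Matrix
open scoped Manifold Pointwise

namespace H635.PER

lemma finite_range (Γ : Subgroup SL(2, ℤ)) [Γ.FiniteIndex] (k : ℤ) (f : ℍ → ℂ)
    (hf : ∀ γ ∈ Γ, f ∣[k] γ = f) : (Set.range fun g : SL(2, ℤ) => f ∣[k] g).Finite := by
  let φ : SL(2, ℤ) ⧸ Γ → (ℍ → ℂ) := Quotient.lift (fun g : SL(2, ℤ) => f ∣[k] g⁻¹) (by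
    intro g g' h
    have h1 : g⁻¹ * g' ∈ Γ := QuotientGroup.leftRel_apply.1 h
    have h2 : g'⁻¹ * g ∈ Γ := by
      have := Γ.inv_mem h1
      rwa [_root_.mul_inv_rev, inv_inv] at this
    show f ∣[k] g⁻¹ = f ∣[k] g'⁻¹
    have e : g'⁻¹ = (g'⁻¹ * g) * g⁻¹ := by group
    rw [e, SlashAction.slash_mul, hf _ h2])
  have hfin : (Set.range φ).Finite := Set.finite_range φ
  refine hfin.subset ?_
  rintro _ ⟨g, rfl⟩
  refine ⟨QuotientGroup.mk g⁻¹, ?_⟩
  show f ∣[k] (g⁻¹)⁻¹ = _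
  rw [inv_inv]

lemma eix_translate (hE : S_EIX) (Γ : Subgroup (GL (Fin 2) ℝ)) [Γ.IsArithmetic] (m : ℕ) (k : ℤ)
    (hk : k = m + 1) (f : CuspForm Γ k) (g : SL(2, ℤ)) :
    ∃ H : ℍ → ℂ, EI m ((f : ℍ → ℂ) ∣[(m + 1 : ℤ)] g) H ∧ Mod H := by
  subst hk
  have : ((ConjAct.toConjAct (g : GL (Fin 2) ℝ)⁻¹) • Γ).IsArithmetic := by
    simpa [(show Rat.castHom ℝ = algebraMap ℚ ℝ by rfl), map_inv, SpecialLinearGroup.map_mapGL]
      using! Subgroup.IsArithmetic.conj Γ (SpecialLinearGroup.mapGL ℚ g)⁻¹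
  exact hE _ m (CuspForm.translate f (g : GL (Fin 2) ℝ))

/-- the data attached to a cusp form -/
lemma exists_dat (hE : S_EIX) (M : ℕ) [NeZero M] (m : ℕ) (f : CuspForm (Gamma1 M) (m + 1 : ℤ)) :
    ∃ d : Dat m, (∀ c, ∃ g : SL(2, ℤ), d.h c = (f : ℍ → ℂ) ∣[(m + 1 : ℤ)] g) ∧
      (∀ g : SL(2, ℤ), ∃ c, d.h c = (f : ℍ → ℂ) ∣[(m + 1 : ℤ)] g) ∧ ∀ c, Mod (d.H c) := by
  classical
  have hfin : (Set.range fun g : SL(2, ℤ) => (f : ℍ → ℂ) ∣[(m + 1 : ℤ)] g).Finite :=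
    finite_range (Gamma1 M) _ _ fun γ hγ =>
      f.slash_action_eq' (γ : GL (Fin 2) ℝ) (Subgroup.mem_map_of_mem _ hγ)
  let C : Type := {h : ℍ → ℂ // h ∈ Set.range fun g : SL(2, ℤ) => (f : ℍ → ℂ) ∣[(m + 1 : ℤ)] g}
  have hex : ∀ c : C, ∃ H : ℍ → ℂ, EI m c.1 H ∧ Mod H := by
    rintro ⟨_, g, rfl⟩
    exact eix_translate hE _ m _ rfl f g
  choose H hH using hex
  let act : C → SL(2, ℤ) → C := fun c γ => ⟨c.1 ∣[(m + 1 : ℤ)] γ, by
      obtain ⟨_, g, rfl⟩ := c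
      exact ⟨g * γ, SlashAction.slash_mul _ _ _ _⟩⟩
  have hact : ∀ c γ γ', act (act c γ) γ' = act c (γ * γ') := fun c γ γ' =>
    Subtype.ext (SlashAction.slash_mul _ _ _ _).symm
  refine ⟨Dat.mk C hfin.fintype Subtype.val act hact (fun c γ => rfl) H (fun c => (hH c).1),
    ?_, ?_, fun c => (hH c).2⟩
  · rintro ⟨_, g, rfl⟩
    exact ⟨g, rfl⟩
  · intro g
    exact ⟨⟨_, g, rfl⟩, rfl⟩

section Rp
variable {ι : Type} [Fintype ι] {x : ι → ℂ} {m : ℕ}

lemma Rp.mono {B B' : ℕ} {P : Polynomial ℂ} (h : Rp x m B P) (hB : B ≤ B') : Rp x m B' P := by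
  refine ⟨h.1, fun i hi => ?_⟩
  obtain ⟨c, h1, h2⟩ := h.2 i hi
  exact ⟨c, fun s => (h1 s).trans (by exact_mod_cast hB), h2⟩

lemma Rp.add {B B' : ℕ} {P P' : Polynomial ℂ} (h : Rp x m B P) (h' : Rp x m B' P') :
    Rp x m (B + B') (P + P') := by
  refine ⟨add_mem h.1 h'.1, fun i hi => ?_⟩
  obtain ⟨c, h1, h2⟩ := h.2 i hi
  obtain ⟨c', h3, h4⟩ := h'.2 i hi
  refine ⟨fun s => c s + c' s, fun s => ?_, ?_⟩
  · refine (abs_add_le _ _).trans ?_
    push_cast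
    exact add_le_add (h1 s) (h3 s)
  · rw [Polynomial.coeff_add, h2, h4, ← Finset.sum_add_distrib]
    refine Finset.sum_congr rfl fun s _ => ?_
    push_cast
    ring

lemma Rp.zero : Rp x m 0 0 := by
  refine ⟨zero_mem _, fun i _ => ⟨fun _ => 0, fun s => by simp, by simp⟩⟩

lemma Rp.sum {B n : ℕ} (P : Fin n → Polynomial ℂ) (h : ∀ i, Rp x m B (P i)) :
    Rp x m (n * B) (∑ i, P i) := by
  induction n with
  | zero => rw [Finset.univ_eq_empty, Finset.sum_empty, zero_mul]; exact Rp.zero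
  | succ n ih =>
    rw [Fin.sum_univ_castSucc, Nat.succ_mul]
    exact (ih _ fun i => h _).add (h _)

lemma Rp.eq_zero {B : ℕ} {P : Polynomial ℂ} (h : Rp x m B P) (hx : ∀ s, x s = 0) : P = 0 := by
  ext i
  rw [Polynomial.coeff_zero]
  rcases lt_or_ge i m with hi | hi
  · obtain ⟨c, -, h2⟩ := h.2 i hi
    rw [h2]
    exact Finset.sum_eq_zero fun s _ => by rw [hx, mul_zero]
  · have h1 := h.1
    rw [Polynomial.mem_degreeLT] at h1
    exact Polynomial.coeff_eq_zero_of_degree_lt (h1.trans_le (by exact_mod_cast hi))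

end Rp

/-- the entries of the matrix which gives the action of `a_p` -/
lemma exists_T {m : ℕ} (hm : 1 ≤ m) (d : Dat m) (hB : S_Bol) (hP : S_Poly) (hU : S_Uniq)
    (hN : S_HNF) (h2 : S_Rp2) (hR : S_Rec) (p : ℕ) (hp : 0 < p) (lam : ℂ)
    (hlam : ∀ c, ∃ (n : ℕ) (c' : Fin n → d.C) (a e : Fin n → ℕ+) (b : Fin n → ℕ), n ≤ p + 1 ∧
      (∀ i, (a i * e i : ℕ) = p ∧ b i < e i) ∧
      lam • d.h c = ∑ i, d.h (c' i) ∣[(m + 1 : ℤ)] tri (a i) (b i) (e i)) (c : d.C) :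
    @Rp (d.C × Fin m) (@instFintypeProd _ _ d.fin _) (xx d hB hP) m
      ((p + 1) * (m * ((4 * p) * m * (2 * (4 * p)) ^ (m - 1)) * (2 * p) ^ (m - 1)))
      (lam • r d hB hP c ModularGroup.S) := by
  let _ := d.fin
  obtain ⟨n, c', a, e, b, hn, hae, hsum⟩ := hlam c
  have hle : ∀ i, ((a i : ℕ) : ℤ) ≤ p ∧ ((e i : ℕ) : ℤ) ≤ p ∧ ((b i : ℕ) : ℤ) ≤ p := by
    intro i
    have h3 := (hae i).1
    have h4 := (hae i).2
    have h5 := (a i).pos
    have h6 := (e i).pos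
    have h7 : (a i : ℕ) ≤ p := by rw [← h3]; exact Nat.le_mul_of_pos_right _ h6
    have h8 : (e i : ℕ) ≤ p := by rw [← h3]; exact Nat.le_mul_of_pos_left _ h5
    refine ⟨by exact_mod_cast h7, by exact_mod_cast h8, ?_⟩
    exact_mod_cast (h4.le.trans h8)
  have hnf : ∀ i, ∃ (γ : SL(2, ℤ)) (a' e' : ℕ+) (b' : ℕ), (a' * e' : ℕ) = p ∧ b' < e' ∧
      (∀ j l, |γ j l| ≤ 2 * (p : ℤ)) ∧
      !![((a i : ℕ) : ℤ), ((b i : ℕ) : ℤ); 0, ((e i : ℕ) : ℤ)] *
      (ModularGroup.S : Matrix (Fin 2) (Fin 2) ℤ) = (γ : Matrix (Fin 2) (Fin 2) ℤ) *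
        !![((a' : ℕ) : ℤ), ((b' : ℕ) : ℤ); 0, ((e' : ℕ) : ℤ)] := by
    intro i
    refine hN _ p p hp ?_ ?_
    · rw [det_mul, ModularGroup.S.det_coe, mul_one, det_fin_two_of, mul_zero, sub_zero]
      exact_mod_cast (hae i).1
    · obtain ⟨h3, h4, h5⟩ := hle i
      intro j l
      fin_cases j <;> fin_cases l <;>
        simp [ModularGroup.S, Matrix.mul_apply, Fin.sum_univ_two, h3, h4, h5]
  choose g a' e' b' hae' hb' hg' hgeq using hnf
  rw [hecke_r d hB hP hU hm p hp lam c c' a e b (fun i => (hae i).1) hsum g a' e' b' hae' hgeq]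
  refine (Rp.sum _ fun i => ?_ : Rp (xx d hB hP) m (n * _) _).mono
    (Nat.mul_le_mul_right _ hn)
  refine h2 _ _ m _ p _ _ ?_ ?_
  · have h5 := (a' i).pos
    have h6 := (e' i).pos
    have h7 : (a' i : ℕ) ≤ p := by rw [← hae' i]; exact Nat.le_mul_of_pos_right _ h6
    have h8 : (e' i : ℕ) ≤ p := by rw [← hae' i]; exact Nat.le_mul_of_pos_left _ h5
    have h9 : b' i ≤ p := (hb' i).le.trans h8
    intro j l
    fin_cases j <;> fin_cases l <;> simp <;> assumption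
  · refine rp_all d hB hP h2 hR hU hm _ _ (4 * p) ?_
    have h3 := hg' i 1 0
    have h4 := hg' i 1 1
    push_cast
    linarith

/-- **The period lattice.** -/
theorem latt (hB : S_Bol) (hP : S_Poly) (hU : S_Uniq) (hE : S_EIX) (hN : S_HNF) (hH : S_Hec)
    (h2 : S_Rp2) (hR : S_Rec) (hC : H635.GEN.S_NegC) : S_Latt := by
  classical
  intro M k _ χ f hk hf
  obtain ⟨m, rfl⟩ : ∃ m, k = m + 1 := ⟨k - 1, by omega⟩
  have hm : 1 ≤ m := by omega
  obtain ⟨d, hd1, hd2, hd3⟩ := exists_dat hE M m f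
  let _ := d.fin
  let ι := d.C × Fin m
  let x : ι → ℂ := xx d hB hP
  let e : ι ≃ Fin (Fintype.card ι) := Fintype.equivFin ι
  refine ⟨Fintype.card ι, fun i => x (e.symm i), ?_, 2 * (m * (4 * m * 8 ^ (m - 1)) * 2 ^ (m - 1)),
    2 + (m - 1) + (m - 1), ?_⟩
  · -- not zero
    intro h0
    have hx : ∀ s, x s = 0 := fun s => by
      have := congrFun h0 (e s)
      simpa using this
    have hr : ∀ c γ, r d hB hP c γ = 0 := by
      intro c γ
      exact (rp_all d hB hP h2 hR hU hm c γ (|γ 1 0| + |γ 1 1|).toNat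
        (Int.self_le_toNat _)).eq_zero hx
    obtain ⟨c0, hc0⟩ := hd2 1
    rw [SlashAction.slash_one] at hc0
    have hact : ∀ γ : SL(2, ℤ), d.H (d.act c0 γ) = d.H c0 ∣[(1 - m : ℤ)] γ := by
      intro γ
      funext z
      have h3 := r_spec d hB hP c0 γ z
      rw [hr, Polynomial.eval_zero] at h3
      exact sub_eq_zero.1 h3
    have hN1 : (-((m - 1 : ℕ) : ℤ)) = 1 - m := by
      rw [Nat.cast_sub hm]
      push_cast
      ring
    have hH0 : d.H c0 = 0 := by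
      refine hC (m - 1) (d.H c0) (by omega) (d.ei c0).1 (hd3 c0) ?_
      refine (Set.finite_range d.H).subset ?_
      rintro _ ⟨γ, rfl⟩
      beta_reduce
      rw [hN1, ← hact γ]
      exact ⟨_, rfl⟩
    have hf0 : (f : ℍ → ℂ) = 0 := by
      funext z
      have h3 := (d.ei c0).2.2 z
      rw [hH0, hc0] at h3
      rw [← h3]
      have e0 : (0 : ℍ → ℂ) ∘ ofComplex = (0 : ℂ → ℂ) := rfl
      rw [e0, iteratedDeriv_const_zero]
      rfl
    have h4 := hf.coeff_one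
    rw [hf0, qExpansion_zero, map_zero] at h4
    exact zero_ne_one h4
  · intro p hp
    have hlam : ∀ c, ∃ (n : ℕ) (c' : Fin n → d.C) (a e : Fin n → ℕ+) (b : Fin n → ℕ), n ≤ p + 1 ∧
      (∀ i, (a i * e i : ℕ) = p ∧ b i < e i) ∧ (qExpansion 1 f).coeff p • d.h c =
        ∑ i, d.h (c' i) ∣[(m + 1 : ℤ)] tri (a i) (b i) (e i) := by
      intro c
      obtain ⟨g, hg⟩ := hd1 c
      obtain ⟨n, g', a, e, b, h3, h4, h5⟩ := hH M (m + 1) χ f (by omega) hf p hp g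
      choose c' hc' using fun i => hd2 (g' i)
      refine ⟨n, c', a, e, b, h3, h4, ?_⟩
      rw [hg]
      simp only [hc']
      push_cast at h5
      exact h5
    have hT := exists_T hm d hB hP hU hN h2 hR p hp.pos ((qExpansion 1 f).coeff p) hlam
    choose T hT1 hT2 using fun (c : d.C) (i : Fin m) => (hT c).2 i i.2
    have hbound : (p + 1) * (m * ((4 * p) * m * (2 * (4 * p)) ^ (m - 1)) * (2 * p) ^ (m - 1)) ≤
        2 * (m * (4 * m * 8 ^ (m - 1)) * 2 ^ (m - 1)) * p ^ (2 + (m - 1) + (m - 1)) := by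
      have h3 : p + 1 ≤ 2 * p := by have := hp.pos; omega
      refine (Nat.mul_le_mul_right _ h3).trans (le_of_eq ?_)
      rw [show 2 * (4 * p) = 8 * p by ring, mul_pow, mul_pow, pow_add, pow_add]
      ring
    refine ⟨fun i j => T (e.symm i).1 (e.symm i).2 (e.symm j), fun i j => ?_, fun i => ?_⟩
    · refine (hT1 _ _ _).trans ?_
      exact_mod_cast hbound
    · have h3 := hT2 (e.symm i).1 (e.symm i).2
      rw [Polynomial.coeff_smul, smul_eq_mul] at h3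
      have h4 : x (e.symm i) = (r d hB hP (e.symm i).1 ModularGroup.S).coeff (e.symm i).2 := rfl
      beta_reduce
      rw [h4, h3]
      exact (Equiv.sum_comp e.symm (fun s => (T (e.symm i).1 (e.symm i).2 s : ℂ) * x s)).symm

end H635.PER
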