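import Pool.Agent.Run7.h635.PER.Stm

/-! Eichler integrals: elementary properties. -/

set_option autoImplicit false

open MatrixGroups UpperHalfPlane ModularForm CongruenceSubgroup Matrix
open scoped Manifold

namespace H635.PER

lemma contDiffAt_of {H : ℍ → ℂ} (hH : MDiff H) (n : ℕ) (z : ℍ) :
    ContDiffAt ℂ n (H ∘ ofComplex) z := by
  have h1 := UpperHalfPlane.mdifferentiable_iff.1 hH
  have h2 : IsOpen {z : ℂ | 0 < z.im} := isOpen_upperHalfPlaneSet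
  exact ((h1.analyticAt (h2.mem_nhds z.im_pos))).contDiffAt

section
variable {m : ℕ} {h h' H H' : ℍ → ℂ}

lemma EI.add (h1 : EI m h H) (h2 : EI m h' H') : EI m (h + h') (H + H') := by
  refine ⟨h1.1.add h2.1, h1.2.1.add h2.2.1, fun z => ?_⟩
  have e : (H + H') ∘ ofComplex = H ∘ ofComplex + H' ∘ ofComplex := rfl
  rw [e, iteratedDeriv_add (contDiffAt_of h1.1 m z) (contDiffAt_of h2.1 m z), h1.2.2, h2.2.2]
  rfl

lemma EI.smul (c : ℂ) (h1 : EI m h H) : EI m (c • h) (c • H) := by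
  refine ⟨h1.1.const_smul c, ?_, fun z => ?_⟩
  · have := h1.2.1.smul c
    exact this
  · have e : (c • H) ∘ ofComplex = c • (H ∘ ofComplex) := rfl
    rw [e, iteratedDeriv_const_smul (contDiffAt_of h1.1 m z), h1.2.2]
    rfl

lemma EI.zero : EI m 0 0 := by
  refine ⟨mdifferentiable_const, Filter.zero_zeroAtFilter _, fun z => ?_⟩
  have e : (0 : ℍ → ℂ) ∘ ofComplex = (0 : ℂ → ℂ) := rfl
  rw [e, iteratedDeriv_const_zero]
  rfl

lemma EI.sum {ι : Type*} (s : Finset ι) (f F : ι → ℍ → ℂ) (hs : ∀ i ∈ s, EI m (f i) (F i)) :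
    EI m (∑ i ∈ s, f i) (∑ i ∈ s, F i) := by
  classical
  induction s using Finset.induction_on with
  | empty => rw [Finset.sum_empty, Finset.sum_empty]; exact EI.zero
  | insert i s hi ih =>
    rw [Finset.sum_insert hi, Finset.sum_insert hi]
    exact (hs i (Finset.mem_insert_self _ _)).add (ih fun j hj => hs j (Finset.mem_insert_of_mem hj))

lemma EI.slash (hB : S_Bol) (h1 : EI m h H) (δ : GL (Fin 2) ℝ) (hδ : 0 < δ.det.val)
    (h10 : δ 1 0 = 0) :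
    EI m (h ∣[(m + 1 : ℤ)] δ) (((δ.det.val : ℝ) : ℂ) ^ (m : ℤ) • (H ∣[(1 - m : ℤ)] δ)) := by
  have h2 : MDiff (H ∣[(1 - m : ℤ)] δ) := h1.1.slash _ δ
  have h3 : IsZeroAtImInfty (H ∣[(1 - m : ℤ)] δ) := h1.2.1.slash _ h10
  refine ⟨h2.const_smul _, h3.smul _, fun z => ?_⟩
  have e : (((δ.det.val : ℝ) : ℂ) ^ (m : ℤ) • (H ∣[(1 - m : ℤ)] δ)) ∘ ofComplex =
      ((δ.det.val : ℝ) : ℂ) ^ (m : ℤ) • ((H ∣[(1 - m : ℤ)] δ) ∘ ofComplex) := rfl
  rw [e, iteratedDeriv_const_smul (contDiffAt_of h2 m z), hB m h H h1.1 h1.2.2 δ hδ z, smul_eq_mul,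
    ← mul_assoc, ← zpow_add₀ (by exact_mod_cast hδ.ne'), add_neg_cancel, zpow_zero, one_mul]

end

end H635.PER
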