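import Pool.Agent.Run7.h635.PER.Lat1

/-! Period polynomials. -/

set_option autoImplicit false

open MatrixGroups UpperHalfPlane ModularForm CongruenceSubgroup Matrix
open scoped Manifold

namespace H635.PER

lemma eval_pact {m : ℕ} (hm : 1 ≤ m) {P : Polynomial ℂ} (hP : P ∈ Polynomial.degreeLT ℂ m)
    (A : Matrix (Fin 2) (Fin 2) ℤ) (z : ℂ) (hz : ((A 1 0 : ℤ) : ℂ) * z + ((A 1 1 : ℤ) : ℂ) ≠ 0) :
    (pact m P A).eval z = (((A 1 0 : ℤ) : ℂ) * z + ((A 1 1 : ℤ) : ℂ)) ^ (m - 1) *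
      P.eval ((((A 0 0 : ℤ) : ℂ) * z + ((A 0 1 : ℤ) : ℂ)) /
        (((A 1 0 : ℤ) : ℂ) * z + ((A 1 1 : ℤ) : ℂ))) := by
  have hdeg : P.natDegree < m ∨ P = 0 := by
    by_cases h0 : P = 0
    · exact Or.inr h0
    · left
      rw [Polynomial.mem_degreeLT] at hP
      exact (Polynomial.natDegree_lt_iff_degree_lt h0).2 hP
  have hlt : P.natDegree < m := by
    rcases hdeg with h | rfl
    · exact h
    · simp; omega
  rw [Polynomial.eval_eq_sum_range' hlt, pact, Polynomial.eval_finsetSum, Finset.mul_sum]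
  refine Finset.sum_congr rfl fun j hj => ?_
  rw [Finset.mem_range] at hj
  simp only [Polynomial.eval_mul, Polynomial.eval_pow, Polynomial.eval_add, Polynomial.eval_C,
    Polynomial.eval_X]
  set D := ((A 1 0 : ℤ) : ℂ) * z + ((A 1 1 : ℤ) : ℂ)
  have e : D ^ (m - 1) = D ^ (m - 1 - j) * D ^ j := by
    rw [← pow_add]; congr 1; omega
  rw [e, div_pow]
  field_simp

/-- action on the function of a polynomial -/
lemma slash_poly {m : ℕ} (hm : 1 ≤ m) {P : Polynomial ℂ} (hP : P ∈ Polynomial.degreeLT ℂ m)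
    (A : Matrix (Fin 2) (Fin 2) ℤ) (δ : GL (Fin 2) ℝ) (hδ : 0 < δ.det.val)
    (hA : ∀ i j, δ i j = A i j) {F : ℍ → ℂ} (hF : ∀ z : ℍ, F z = P.eval (z : ℂ)) (z : ℍ) :
    ((δ.det.val : ℝ) : ℂ) ^ (m : ℤ) * (F ∣[(1 - m : ℤ)] δ) z = (pact m P A).eval (z : ℂ) := by
  have hd0 : ((δ.det.val : ℝ) : ℂ) ≠ 0 := by exact_mod_cast hδ.ne'
  have hden : denom δ z ≠ 0 := denom_ne_zero δ z
  have hden2 : denom δ z = ((A 1 0 : ℤ) : ℂ) * z + ((A 1 1 : ℤ) : ℂ) := by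
    rw [denom, hA, hA]; push_cast; rfl
  have hnum : num δ z = ((A 0 0 : ℤ) : ℂ) * z + ((A 0 1 : ℤ) : ℂ) := by
    rw [num, hA, hA]; push_cast; rfl
  rw [slash_apply, hF, coe_smul_of_det_pos hδ, eval_pact hm hP A z (by rw [← hden2]; exact hden),
    ← hden2, ← hnum, σ, if_pos hδ, abs_of_pos hδ]
  simp only [ContinuousAlgEquiv.refl_apply]
  have e1 : (((δ.det.val : ℝ) : ℂ)) ^ (m : ℤ) * ((δ.det.val : ℝ) : ℂ) ^ ((1 - m : ℤ) - 1) = 1 := by
    rw [← zpow_add₀ hd0]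
    have : (m : ℤ) + ((1 - m : ℤ) - 1) = 0 := by ring
    rw [this, zpow_zero]
  have e2 : denom δ z ^ (-(1 - m : ℤ)) = denom δ z ^ (m - 1) := by
    rw [← zpow_natCast]
    congr 1
    omega
  rw [e2]
  linear_combination (Polynomial.eval (num δ z / denom δ z) P * denom δ z ^ (m - 1)) * e1

lemma poly_ext {P Q : Polynomial ℂ} (h : ∀ z : ℍ, P.eval (z : ℂ) = Q.eval (z : ℂ)) : P = Q := by
  refine Polynomial.eq_of_infinite_eval_eq P Q ?_
  refine Set.Infinite.mono (s := Set.range fun n : ℕ => ((n : ℂ) + Complex.I)) ?_ ?_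
  · rintro _ ⟨n, rfl⟩
    exact h ⟨(n : ℂ) + Complex.I, by simp⟩
  · refine Set.infinite_range_of_injective ?_
    intro a b hab
    simpa using hab

/-- a finite set of functions, closed under the slash action, and their Eichler integrals -/
structure Dat (m : ℕ) where
  C : Type
  fin : Fintype C
  h : C → ℍ → ℂ
  act : C → SL(2, ℤ) → C
  act_act : ∀ c γ γ', act (act c γ) γ' = act c (γ * γ')
  h_act : ∀ c (γ : SL(2, ℤ)), h (act c γ) = h c ∣[(m + 1 : ℤ)] γ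
  H : C → ℍ → ℂ
  ei : ∀ c, EI m (h c) (H c)

section
variable {m : ℕ} (d : Dat m)

lemma det_SL (γ : SL(2, ℤ)) : ((γ : GL (Fin 2) ℝ).det.val) = 1 := by
  simp

lemma exists_r (hB : S_Bol) (hP : S_Poly) (c : d.C) (γ : SL(2, ℤ)) :
    ∃ P : Polynomial ℂ, P ∈ Polynomial.degreeLT ℂ m ∧
      ∀ z : ℍ, d.H (d.act c γ) z - (d.H c ∣[(1 - m : ℤ)] γ) z = P.eval (z : ℂ) := by
  have h1 := d.ei (d.act c γ)
  have h2 := d.ei c
  have h3 : MDiff (d.H c ∣[(1 - m : ℤ)] γ) := h2.1.slash _ (γ : GL (Fin 2) ℝ)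
  obtain ⟨P, hP1, hP2⟩ := hP m (d.H (d.act c γ) - (d.H c ∣[(1 - m : ℤ)] γ)) (h1.1.sub h3)
    (fun z => by
      have e : (d.H (d.act c γ) - (d.H c ∣[(1 - m : ℤ)] γ)) ∘ ofComplex =
        (d.H (d.act c γ)) ∘ ofComplex - (d.H c ∣[(1 - m : ℤ)] γ) ∘ ofComplex := rfl
      rw [e, iteratedDeriv_sub (contDiffAt_of h1.1 m z) (contDiffAt_of h3 m z), h1.2.2,
        SL_slash, hB m (d.h c) (d.H c) h2.1 h2.2.2 (γ : GL (Fin 2) ℝ) (by rw [det_SL]; norm_num) z,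
        det_SL, d.h_act, SL_slash]
      simp)
  exact ⟨P, hP1, fun z => hP2 z⟩

/-- the period polynomials -/
noncomputable def r (hB : S_Bol) (hP : S_Poly) (c : d.C) (γ : SL(2, ℤ)) : Polynomial ℂ :=
  (exists_r d hB hP c γ).choose

variable (hB : S_Bol) (hP : S_Poly)

lemma r_mem (c : d.C) (γ : SL(2, ℤ)) : r d hB hP c γ ∈ Polynomial.degreeLT ℂ m :=
  (exists_r d hB hP c γ).choose_spec.1

lemma r_spec (c : d.C) (γ : SL(2, ℤ)) (z : ℍ) :
    d.H (d.act c γ) z - (d.H c ∣[(1 - m : ℤ)] γ) z = (r d hB hP c γ).eval (z : ℂ) :=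
  (exists_r d hB hP c γ).choose_spec.2 z

include hB in
lemma H_act_of_upper (hU : S_Uniq) (c : d.C) (γ : SL(2, ℤ)) (h10 : γ 1 0 = 0) :
    d.H (d.act c γ) = d.H c ∣[(1 - m : ℤ)] γ := by
  have h1 := (d.ei c).slash hB (γ : GL (Fin 2) ℝ) (by rw [det_SL]; norm_num) (by simp [h10])
  rw [det_SL] at h1
  simp only [Complex.ofReal_one, _root_.one_zpow, one_smul] at h1
  have h2 := d.ei (d.act c γ)
  rw [d.h_act, SL_slash] at h2
  exact hU m _ _ _ h2 h1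

lemma r_zero (hU : S_Uniq) (c : d.C) (γ : SL(2, ℤ)) (h10 : γ 1 0 = 0) : r d hB hP c γ = 0 := by
  refine poly_ext fun z => ?_
  rw [← r_spec d hB hP c γ z, H_act_of_upper d hB hU c γ h10, sub_self, Polynomial.eval_zero]

lemma sub_slash' (k : ℤ) (A B : ℍ → ℂ) (γ : SL(2, ℤ)) :
    (A - B) ∣[k] γ = A ∣[k] γ - B ∣[k] γ := by
  rw [sub_eq_add_neg, SlashAction.add_slash, SlashAction.neg_slash, ← sub_eq_add_neg]

lemma r_mul (hm : 1 ≤ m) (c : d.C) (γ γ' : SL(2, ℤ)) :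
    r d hB hP c (γ * γ') = r d hB hP (d.act c γ) γ' + pact m (r d hB hP c γ) γ' := by
  refine poly_ext fun z => ?_
  have h1 := slash_poly hm (r_mem d hB hP c γ) (γ' : Matrix (Fin 2) (Fin 2) ℤ)
    (γ' : GL (Fin 2) ℝ) (by rw [det_SL]; norm_num) (fun i j => by simp)
    (F := d.H (d.act c γ) - (d.H c ∣[(1 - m : ℤ)] γ)) (fun z => r_spec d hB hP c γ z) z
  rw [det_SL] at h1
  simp only [Complex.ofReal_one, _root_.one_zpow, one_mul] at h1
  have e : (d.H (d.act c γ) - (d.H c ∣[(1 - m : ℤ)] γ)) ∣[(1 - m : ℤ)] γ' =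
      d.H (d.act c γ) ∣[(1 - m : ℤ)] γ' - d.H c ∣[(1 - m : ℤ)] (γ * γ') := by
    rw [sub_slash', SlashAction.slash_mul]
  rw [Polynomial.eval_add, ← h1, ← r_spec, ← r_spec, d.act_act, ← SL_slash, e]
  simp only [Pi.sub_apply]
  ring

end

end H635.PER
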