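import Pool.Agent.Run7.h635.PER.Lat2

/-! The period lattice is stable under the Hecke eigenvalues. -/

set_option autoImplicit false

open MatrixGroups UpperHalfPlane ModularForm CongruenceSubgroup Matrix
open scoped Manifold

namespace H635.PER

lemma det_tri (a d : ℕ+) (b : ℕ) : (tri a b d).det.val = ((a * d : ℕ) : ℝ) := by
  show Matrix.det (!![((a : ℕ) : ℝ), ((b : ℕ) : ℝ); 0, ((d : ℕ) : ℝ)]) = _
  rw [det_fin_two_of]
  push_cast
  ring

lemma gl_eq {a d a' d' : ℕ+} {b b' : ℕ} {γ γ' : SL(2, ℤ)}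
    (h : !![((a : ℕ) : ℤ), ((b : ℕ) : ℤ); 0, ((d : ℕ) : ℤ)] * (γ' : Matrix (Fin 2) (Fin 2) ℤ) =
      (γ : Matrix (Fin 2) (Fin 2) ℤ) * !![((a' : ℕ) : ℤ), ((b' : ℕ) : ℤ); 0, ((d' : ℕ) : ℤ)]) :
    tri a b d * (γ' : GL (Fin 2) ℝ) = (γ : GL (Fin 2) ℝ) * tri a' b' d' := by
  apply Units.ext
  have h2 := congrArg (fun M : Matrix (Fin 2) (Fin 2) ℤ => M.map (Int.castRingHom ℝ)) h
  simp only [Matrix.map_mul] at h2
  have e : ∀ (a d : ℕ+) (b : ℕ), (tri a b d).val =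
      (!![((a : ℕ) : ℤ), ((b : ℕ) : ℤ); 0, ((d : ℕ) : ℤ)]).map (Int.castRingHom ℝ) := by
    intro a d b
    ext i j
    fin_cases i <;> fin_cases j <;> simp [tri]
  rw [Units.val_mul, Units.val_mul, e, e]
  exact h2

section
variable {m : ℕ} (d : Dat m) (hB : S_Bol) (hP : S_Poly)

/-- the coefficients of the period polynomials for the matrix `S` -/
noncomputable def xx (s : d.C × Fin m) : ℂ := (r d hB hP s.1 ModularGroup.S).coeff s.2

lemma rp_S (c : d.C) : @Rp (d.C × Fin m) (@instFintypeProd _ _ d.fin _) (xx d hB hP) m 1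
    (r d hB hP c ModularGroup.S) := by
  classical
  let _ := d.fin
  refine ⟨r_mem d hB hP c _, fun i hi => ⟨fun s => if s = (c, ⟨i, hi⟩) then 1 else 0, ?_, ?_⟩⟩
  · intro s
    beta_reduce
    split_ifs <;> simp
  · simp only [Int.cast_ite, Int.cast_one, Int.cast_zero, ite_mul, one_mul, zero_mul]
    rw [Finset.sum_ite_eq' Finset.univ, if_pos (Finset.mem_univ _)]
    rfl

lemma rp_all (h2 : S_Rp2) (hR : S_Rec) (hU : S_Uniq) (hm : 1 ≤ m) (c : d.C) (γ : SL(2, ℤ)) (X : ℕ)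
    (hX : |γ 1 0| + |γ 1 1| ≤ X) :
    @Rp (d.C × Fin m) (@instFintypeProd _ _ d.fin _) (xx d hB hP) m (X * m * (2 * X) ^ (m - 1))
      (r d hB hP c γ) := by
  let _ := d.fin
  exact hR h2 (d.C × Fin m) (xx d hB hP) m d.C d.act (r d hB hP) hm d.act_act
    (fun c γ h => r_zero d hB hP hU c γ h) (fun c γ γ' => r_mul d hB hP hm c γ γ')
    (fun c => rp_S d hB hP c) c γ X hX

/-- the Hecke relation on period polynomials -/
lemma hecke_r (hU : S_Uniq) (hm : 1 ≤ m) (p : ℕ) (hp : 0 < p) (lam : ℂ) (c : d.C) {n : ℕ}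
    (c' : Fin n → d.C) (a e : Fin n → ℕ+) (b : Fin n → ℕ) (hae : ∀ i, (a i * e i : ℕ) = p)
    (hsum : lam • d.h c = ∑ i, d.h (c' i) ∣[(m + 1 : ℤ)] tri (a i) (b i) (e i))
    (g : Fin n → SL(2, ℤ)) (a' e' : Fin n → ℕ+) (b' : Fin n → ℕ)
    (hae' : ∀ i, (a' i * e' i : ℕ) = p)
    (hg : ∀ i, !![((a i : ℕ) : ℤ), ((b i : ℕ) : ℤ); 0, ((e i : ℕ) : ℤ)] *
      (ModularGroup.S : Matrix (Fin 2) (Fin 2) ℤ) = (g i : Matrix (Fin 2) (Fin 2) ℤ) *
        !![((a' i : ℕ) : ℤ), ((b' i : ℕ) : ℤ); 0, ((e' i : ℕ) : ℤ)]) :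
    lam • r d hB hP c ModularGroup.S = ∑ i, pact m (r d hB hP (c' i) (g i))
      !![((a' i : ℕ) : ℤ), ((b' i : ℕ) : ℤ); 0, ((e' i : ℕ) : ℤ)] := by
  have hp0 : (p : ℂ) ≠ 0 := by exact_mod_cast hp.ne'
  have hgl : ∀ i, tri (a i) (b i) (e i) * (ModularGroup.S : GL (Fin 2) ℝ) =
      (g i : GL (Fin 2) ℝ) * tri (a' i) (b' i) (e' i) := fun i => gl_eq (hg i)
  have hdet : ∀ i, (tri (a i) (b i) (e i)).det.val = (p : ℝ) := fun i => by
    rw [det_tri, hae]
  have hdet' : ∀ i, (tri (a' i) (b' i) (e' i)).det.val = (p : ℝ) := fun i => by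
    rw [det_tri, hae']
  have hppos : (0 : ℝ) < p := by exact_mod_cast hp
  have h10 : ∀ (a e : ℕ+) (b : ℕ), tri a b e 1 0 = 0 := fun a e b => by simp [tri]
  -- the Eichler integral of `lam • h c`
  have e1 : lam • d.H c = ∑ i, (p : ℂ) ^ (m : ℤ) •
      (d.H (c' i) ∣[(1 - m : ℤ)] tri (a i) (b i) (e i)) := by
    refine hU m (lam • d.h c) _ _ ((d.ei c).smul lam) ?_
    rw [hsum]
    refine EI.sum _ _ _ fun i _ => ?_
    have h1 := (d.ei (c' i)).slash hB (tri (a i) (b i) (e i)) (by rw [hdet]; exact hppos)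
      (h10 _ _ _)
    rw [hdet] at h1
    simpa using h1
  -- the Eichler integral of `lam • h c | S`
  have e2 : lam • d.H (d.act c ModularGroup.S) = ∑ i, (p : ℂ) ^ (m : ℤ) •
      (d.H (d.act (c' i) (g i)) ∣[(1 - m : ℤ)] tri (a' i) (b' i) (e' i)) := by
    refine hU m (lam • d.h (d.act c ModularGroup.S)) _ _ ((d.ei _).smul lam) ?_
    have e3 : lam • d.h (d.act c ModularGroup.S) =
        ∑ i, d.h (d.act (c' i) (g i)) ∣[(m + 1 : ℤ)] tri (a' i) (b' i) (e' i) := by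
      rw [d.h_act, ← SL_smul_slash, hsum, SL_slash, SlashAction.sum_slash]
      refine Finset.sum_congr rfl fun i _ => ?_
      rw [← SlashAction.slash_mul, hgl, SlashAction.slash_mul, d.h_act, SL_slash]
    rw [e3]
    refine EI.sum _ _ _ fun i _ => ?_
    have h1 := (d.ei (d.act (c' i) (g i))).slash hB (tri (a' i) (b' i) (e' i))
      (by rw [hdet']; exact hppos) (h10 _ _ _)
    rw [hdet'] at h1
    simpa using h1
  have e4 : (lam • d.H c) ∣[(1 - m : ℤ)] ModularGroup.S = ∑ i, (p : ℂ) ^ (m : ℤ) •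
      ((d.H (c' i) ∣[(1 - m : ℤ)] g i) ∣[(1 - m : ℤ)] tri (a' i) (b' i) (e' i)) := by
    rw [e1, SlashAction.sum_slash]
    refine Finset.sum_congr rfl fun i _ => ?_
    rw [SL_smul_slash]
    congr 1
    rw [SL_slash, ← SlashAction.slash_mul, hgl, SlashAction.slash_mul, SL_slash]
  refine poly_ext fun z => ?_
  rw [Polynomial.eval_smul, ← r_spec, Polynomial.eval_finsetSum]
  have e5 : lam • (d.H (d.act c ModularGroup.S) z -
      (d.H c ∣[(1 - m : ℤ)] ModularGroup.S) z) =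
      (lam • d.H (d.act c ModularGroup.S)) z -
        ((lam • d.H c) ∣[(1 - m : ℤ)] ModularGroup.S) z := by
    rw [SL_smul_slash]
    simp only [Pi.smul_apply, smul_sub]
  rw [e5, e2, e4, Finset.sum_apply, Finset.sum_apply, ← Finset.sum_sub_distrib]
  refine Finset.sum_congr rfl fun i _ => ?_
  have h1 := slash_poly hm (r_mem d hB hP (c' i) (g i))
    !![((a' i : ℕ) : ℤ), ((b' i : ℕ) : ℤ); 0, ((e' i : ℕ) : ℤ)]
    (tri (a' i) (b' i) (e' i)) (by rw [hdet']; exact hppos)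
    (fun i j => by fin_cases i <;> fin_cases j <;> simp [tri])
    (F := d.H (d.act (c' i) (g i)) - (d.H (c' i) ∣[(1 - m : ℤ)] g i))
    (fun z => r_spec d hB hP (c' i) (g i) z) z
  rw [← h1, hdet', sub_eq_add_neg (d.H (d.act (c' i) (g i))), SlashAction.add_slash,
    SlashAction.neg_slash]
  simp only [Pi.smul_apply, Pi.add_apply, Pi.neg_apply, smul_eq_mul, Complex.ofReal_natCast]
  ring

end

end H635.PER
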