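import Mathlib

/-!
# Period lattices of eigenforms: statements

`f` is an eigenform of weight `k = m + 1 ≥ 3` on `Γ_1(M)`. The coefficients of the period
polynomials of the translates `f ∣[k] g`, `g ∈ SL(2, ℤ)`, span a finitely generated subgroup of
`ℂ`, which is not zero and stable under the eigenvalues `a_p`.
-/

set_option autoImplicit false

open MatrixGroups UpperHalfPlane ModularForm CongruenceSubgroup Matrix
open scoped Manifold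

namespace H635.PER

/-- `H` is the `m`-fold primitive of `h` which vanishes at `i∞` (Eichler integral of `h`). -/
def EI (m : ℕ) (h H : ℍ → ℂ) : Prop :=
  MDiff H ∧ IsZeroAtImInfty H ∧ ∀ z : ℍ, iteratedDeriv m (H ∘ ofComplex) z = h z

/-- moderate growth -/
def Mod (H : ℍ → ℂ) : Prop := ∃ (C : ℝ) (A : ℕ), ∀ τ : ℍ, ‖H τ‖ ≤ C * (1 + 1 / τ.im) ^ A

/-- BOL: Bol's identity. By induction on `m`:
`D^(m+1) ((cz+d) · F) = (cz+d) · D^(m+1) F + (m+1) c · D^m F`. -/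
def S_Bol : Prop := ∀ (m : ℕ) (h H : ℍ → ℂ), MDiff H →
  (∀ z : ℍ, iteratedDeriv m (H ∘ ofComplex) z = h z) →
  ∀ δ : GL (Fin 2) ℝ, 0 < δ.det.val →
  ∀ z : ℍ, iteratedDeriv m ((H ∣[(1 - m : ℤ)] δ) ∘ ofComplex) z =
    ((δ.det.val : ℝ) : ℂ) ^ (-(m : ℤ)) * (h ∣[(m + 1 : ℤ)] δ) z

/-- POLY: functions with vanishing `m`-th derivative are polynomials. -/
def S_Poly : Prop := ∀ (m : ℕ) (D : ℍ → ℂ), MDiff D →
  (∀ z : ℍ, iteratedDeriv m (D ∘ ofComplex) z = 0) →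
  ∃ P : Polynomial ℂ, P ∈ Polynomial.degreeLT ℂ m ∧ ∀ z : ℍ, D z = P.eval (z : ℂ)

/-- UNIQ: Eichler integrals are unique. -/
def S_Uniq : Prop := ∀ (m : ℕ) (h H H' : ℍ → ℂ), EI m h H → EI m h H' → H = H'

/-- EIX: Eichler integrals of cusp forms exist, `H = ∑ a_n (L / (2πi n))^m e(nz/L)`, where `L > 0`
is a period of `f`, and have moderate growth. -/
def S_EIX : Prop := ∀ (𝒢 : Subgroup (GL (Fin 2) ℝ)) [𝒢.IsArithmetic] (m : ℕ)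
  (f : CuspForm 𝒢 (m + 1 : ℤ)), ∃ H : ℍ → ℂ, EI m f H ∧ Mod H

/-- the upper triangular matrix with rows `(a, b)`, `(0, d)` -/
noncomputable def tri (a : ℕ+) (b : ℕ) (d : ℕ+) : GL (Fin 2) ℝ :=
  GeneralLinearGroup.mkOfDetNeZero !![((a : ℕ) : ℝ), ((b : ℕ) : ℝ); 0, ((d : ℕ) : ℝ)]
    (by rw [det_fin_two_of]; simp)

/-- HNF: Hermite normal form. -/
def S_HNF : Prop := ∀ (A : Matrix (Fin 2) (Fin 2) ℤ) (n : ℕ) (X : ℤ), 0 < n → A.det = n →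
  (∀ i j, |A i j| ≤ X) →
  ∃ (γ : SL(2, ℤ)) (a d : ℕ+) (b : ℕ), (a * d : ℕ) = n ∧ b < d ∧ (∀ i j, |γ i j| ≤ 2 * X) ∧
    A = (γ : Matrix (Fin 2) (Fin 2) ℤ) * !![((a : ℕ) : ℤ), ((b : ℕ) : ℤ); 0, ((d : ℕ) : ℤ)]

/-- The Hecke operator `T_p` of weight `k`, character `χ` and level `M` (`χ p = 0` for `p ∣ M`) -/
noncomputable def heckeT (k : ℕ) (χ : ℕ → ℂ) (p : ℕ) (f : ℍ → ℂ) (z : ℍ) : ℂ :=
  χ p * (p : ℂ) ^ (k - 1) * f (ofComplex ((p : ℂ) * z)) +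
    (∑ b ∈ Finset.range p, f (ofComplex (((z : ℂ) + b) / p))) / p

/-- `f` is a normalized eigenform of level `M`, weight `k`, character `χ`. -/
structure IsEigenform (M k : ℕ) (χ : DirichletCharacter ℂ M) (f : CuspForm (Gamma1 M) k) :
    Prop where
  coeff_one : (qExpansion 1 f).coeff 1 = 1
  nebentypus : ∀ γ ∈ Gamma0 M, (f : ℍ → ℂ) ∣[(k : ℤ)] γ = χ ((γ 1 1 : ℤ) : ZMod M) • (f : ℍ → ℂ)
  hecke : ∀ p : ℕ, p.Prime → ∃ c : ℂ, ∀ z : ℍ, heckeT k (fun n => χ (n : ZMod M)) p f z = c * f z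

/-- COEF: the Hecke relations (W97/TW/Hecke.lean). -/
def S_Coef : Prop := ∀ (M k : ℕ) [NeZero M] (χ : DirichletCharacter ℂ M) (f : CuspForm (Gamma1 M) k),
  1 ≤ k → IsEigenform M k χ f → ∀ p : ℕ, p.Prime →
  (∀ z : ℍ, heckeT k (fun n => χ (n : ZMod M)) p f z = (qExpansion 1 f).coeff p * f z) ∧
  ∀ n : ℕ, (qExpansion 1 f).coeff (p * n) = (qExpansion 1 f).coeff p * (qExpansion 1 f).coeff n -
    if p ∣ n then χ (p : ZMod M) * (p : ℂ) ^ (k - 1) * (qExpansion 1 f).coeff (n / p) else 0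

/-- HEC: translates of `a_p f = T_p f` (uses HNF; for `p ∤ M`, `χ(p) f` is a translate of `f`). -/
def S_Hec : Prop := ∀ (M k : ℕ) [NeZero M] (χ : DirichletCharacter ℂ M) (f : CuspForm (Gamma1 M) k),
  1 ≤ k → IsEigenform M k χ f → ∀ p : ℕ, p.Prime → ∀ g : SL(2, ℤ),
  ∃ (n : ℕ) (g' : Fin n → SL(2, ℤ)) (a d : Fin n → ℕ+) (b : Fin n → ℕ), n ≤ p + 1 ∧
    (∀ i, (a i * d i : ℕ) = p ∧ b i < d i) ∧
    (qExpansion 1 f).coeff p • ((f : ℍ → ℂ) ∣[(k : ℤ)] g) =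
      ∑ i, ((f : ℍ → ℂ) ∣[(k : ℤ)] g' i) ∣[(k : ℤ)] tri (a i) (b i) (d i)

/-- the action of integral matrices on polynomials of degree `< m` -/
noncomputable def pact (m : ℕ) (P : Polynomial ℂ) (δ : Matrix (Fin 2) (Fin 2) ℤ) : Polynomial ℂ :=
  ∑ j ∈ Finset.range m, Polynomial.C (P.coeff j) *
    (Polynomial.C ((δ 0 0 : ℤ) : ℂ) * Polynomial.X + Polynomial.C ((δ 0 1 : ℤ) : ℂ)) ^ j *
    (Polynomial.C ((δ 1 0 : ℤ) : ℂ) * Polynomial.X + Polynomial.C ((δ 1 1 : ℤ) : ℂ)) ^ (m - 1 - j)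

/-- polynomials of degree `< m` whose coefficients are integral combinations of the numbers `x_s`,
with coefficients bounded by `B` -/
def Rp {ι : Type} [Fintype ι] (x : ι → ℂ) (m : ℕ) (B : ℕ) (P : Polynomial ℂ) : Prop :=
  P ∈ Polynomial.degreeLT ℂ m ∧ ∀ i < m, ∃ c : ι → ℤ, (∀ s, |c s| ≤ B) ∧
    P.coeff i = ∑ s, (c s : ℂ) * x s

/-- RP2: the action of a matrix with entries bounded by `X`. -/
def S_Rp2 : Prop := ∀ (ι : Type) [Fintype ι] (x : ι → ℂ) (m B X : ℕ) (P : Polynomial ℂ)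
  (δ : Matrix (Fin 2) (Fin 2) ℤ), (∀ i j, |δ i j| ≤ X) → Rp x m B P →
  Rp x m (m * B * (2 * X) ^ (m - 1)) (pact m P δ)

/-- REC: reduction to the matrix `S` by the Euclidean algorithm. For `c = γ 1 0 ≠ 0` write
`γ = T^n S γ''`, where the first entry of the last row of `γ''` is smaller than `|c|`. The sum
`|γ 1 0| + |γ 1 1|` does not grow. -/
def S_Rec : Prop := S_Rp2 → ∀ (ι : Type) [Fintype ι] (x : ι → ℂ) (m : ℕ) (σ : Type)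
  (act : σ → SL(2, ℤ) → σ) (r : σ → SL(2, ℤ) → Polynomial ℂ), 1 ≤ m →
  (∀ h γ γ', act (act h γ) γ' = act h (γ * γ')) →
  (∀ h (γ : SL(2, ℤ)), γ 1 0 = 0 → r h γ = 0) →
  (∀ h γ γ', r h (γ * γ') = r (act h γ) γ' + pact m (r h γ) γ') →
  (∀ h, Rp x m 1 (r h ModularGroup.S)) →
  ∀ h (γ : SL(2, ℤ)) (X : ℕ), |γ 1 0| + |γ 1 1| ≤ X → Rp x m (X * m * (2 * X) ^ (m - 1)) (r h γ)

/-- LATT: the period lattice. -/
def S_Latt : Prop := ∀ (M k : ℕ) [NeZero M] (χ : DirichletCharacter ℂ M) (f : CuspForm (Gamma1 M) k),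
  3 ≤ k → IsEigenform M k χ f → ∃ (n : ℕ) (x : Fin n → ℂ), x ≠ 0 ∧ ∃ C A : ℕ,
  ∀ p : ℕ, p.Prime → ∃ T : Matrix (Fin n) (Fin n) ℤ, (∀ i j, |T i j| ≤ C * (p : ℤ) ^ A) ∧
    ∀ i, (qExpansion 1 f).coeff p * x i = ∑ j, (T i j : ℂ) * x j

/-- FLD: the number field of an eigenform and the growth of the conjugates. -/
def S_Fld : Prop := ∀ (k e : ℕ) (χ a : ℕ → ℂ), 1 ≤ e → (∀ p, χ p = 0 ∨ χ p ^ e = 1) →
  a 0 = 0 → a 1 = 1 → (∀ p : ℕ, p.Prime → ∀ n : ℕ,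
    a (p * n) = a p * a n - if p ∣ n then χ p * (p : ℂ) ^ (k - 1) * a (n / p) else 0) →
  (∃ (n : ℕ) (x : Fin n → ℂ), x ≠ 0 ∧ ∃ C A : ℕ, ∀ p : ℕ, p.Prime →
    ∃ T : Matrix (Fin n) (Fin n) ℤ, (∀ i j, |T i j| ≤ C * (p : ℤ) ^ A) ∧
    ∀ i, a p * x i = ∑ j, (T i j : ℂ) * x j) →
  (∀ n, IsIntegral ℤ (a n)) ∧ ∃ K : IntermediateField ℚ ℂ, FiniteDimensional ℚ K ∧
    ∃ h : ∀ n, a n ∈ K, ∃ C A : ℕ, ∀ (σ : K →ₐ[ℚ] ℂ) (n : ℕ),
      ‖σ ⟨a n, h n⟩‖ ≤ C * ((n : ℝ) + 1) ^ A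

end H635.PER
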